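import Mathlib

/-! Toeplitz matrices of bounded functions on the circle: definitions. -/

open Complex

namespace Q8.TZ

/-- Fourier coefficients of a function on `[0, 2π)`. -/
noncomputable def fc (f : ℝ → ℂ) (k : ℤ) : ℂ :=
  (1 / (2 * (Real.pi : ℂ))) * ∫ t in (0 : ℝ)..(2 * Real.pi), f t * exp (-((k : ℂ) * (t * I)))

/-- The `(N+1) × (N+1)` Toeplitz matrix of `f`. -/
noncomputable def toep (N : ℕ) (f : ℝ → ℂ) : Matrix (Fin (N + 1)) (Fin (N + 1)) ℂ :=
  Matrix.of fun j k => fc f ((j : ℤ) - (k : ℤ))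

/-- step function with data `c`, `t`, `ε` -/
noncomputable def stp (n : ℕ) (c ε : ℝ) (t : Fin (2 * n) → ℝ) (s : ℝ) : ℝ :=
  ε * c * (-1) ^ (Finset.univ.filter fun j => t j ≤ s).card

end Q8.TZ
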