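import Pool.Agent.Q8.TZ.Trig

/-! The integral estimate. -/

open Complex MeasureTheory Set

namespace Q8.TZ

/-- abstract estimate on a finite measure space: `c > 0`, `ψ = ± c`, `g ψ = c |g|`, and real functions `f`
bounded by `c + η` with `∫ g f = ∫ g ψ` and `|∫ (f - ψ)| = D`. -/
lemma est {μ : Measure ℝ} [IsFiniteMeasure μ] {c : ℝ} (hc : 0 < c) {ψ g : ℝ → ℝ}
    (hψ : Measurable ψ) (hψ1 : ∀ t, |ψ t| = c) (hg : Measurable g) {Cg : ℝ} (hgb : ∀ t, |g t| ≤ Cg)
    (hgψ : ∀ᵐ t ∂μ, g t * ψ t = c * |g t|) (hz : μ {t | g t = 0} = 0) {D : ℝ} (hD : 0 < D)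
    (h : ∀ η : ℝ, 0 < η → ∃ f : ℝ → ℝ, Measurable f ∧ (∀ t, |f t| ≤ c + η) ∧
      ∫ t, g t * f t ∂μ = ∫ t, g t * ψ t ∂μ ∧ |∫ t, (f t - ψ t) ∂μ| = D) : False := by
  have bi : ∀ {u : ℝ → ℝ}, Measurable u → ∀ {B : ℝ}, (∀ t, |u t| ≤ B) → Integrable u μ := by
    intro u hu B hB
    exact Integrable.of_bound hu.aestronglyMeasurable B (Filter.Eventually.of_forall hB)
  have hgi : Integrable g μ := bi hg hgb
  set G := ∫ t, |g t| ∂μ with hG
  have hG0 : 0 ≤ G := integral_nonneg fun t => abs_nonneg _
  set V := μ.real univ with hV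
  have hV0 : 0 ≤ V := measureReal_nonneg
  -- main inequality
  have key : ∀ κ : ℝ, 0 < κ → ∀ η : ℝ, 0 < η → η ≤ 1 →
      D ≤ η * V + η * G / κ + (2 * c + 2) * μ.real {t | |g t| < κ} := by
    intro κ hκ η hη hη1
    obtain ⟨f, hf, hfb, hfg, hfD⟩ := h η hη
    set H : ℝ → ℝ := fun t => c + η - ψ t * f t / c with hH
    have hHm : Measurable H := (measurable_const.sub ((hψ.mul hf).div_const c))
    have hx : ∀ t, |ψ t * f t / c| ≤ c + η := by
      intro t
      rw [abs_div, abs_mul, hψ1, abs_of_pos hc, mul_div_assoc, mul_comm, div_mul_cancel₀ _ hc.ne']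
      exact hfb t
    have hH0 : ∀ t, 0 ≤ H t := by
      intro t
      have := (abs_le.1 (hx t)).2
      simp only [hH]; linarith
    have hH1 : ∀ t, H t ≤ 2 * c + 2 := by
      intro t
      have := (abs_le.1 (hx t)).1
      simp only [hH]; linarith
    have hHi : Integrable H μ := bi hHm (B := 2 * c + 2) fun t => by
      rw [abs_of_nonneg (hH0 t)]; exact hH1 t
    have hψψ : ∀ t, ψ t * ψ t = c * c := by
      intro t
      rw [← abs_mul_abs_self, hψ1]
    -- (A)
    have hA : ∫ t, |g t| * H t ∂μ = η * G := by
      have e1 : ∀ᵐ t ∂μ, |g t| * H t = (c + η) * |g t| - g t * f t := by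
        filter_upwards [hgψ] with t ht
        have : |g t| * (ψ t * f t / c) = g t * f t := by
          have h1 : c * (|g t| * ψ t) = c * (c * g t) := by
            calc c * (|g t| * ψ t) = (c * |g t|) * ψ t := by ring
              _ = g t * (ψ t * ψ t) := by rw [← ht]; ring
              _ = c * (c * g t) := by rw [hψψ]; ring
          have h2 : |g t| * ψ t = c * g t := mul_left_cancel₀ hc.ne' h1
          calc |g t| * (ψ t * f t / c) = (|g t| * ψ t) * f t / c := by ring
            _ = g t * f t := by rw [h2]; field_simp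
        simp only [hH]
        rw [mul_sub, this]; ring
      have i1 : Integrable (fun t => (c + η) * |g t|) μ := hgi.abs.const_mul _
      have i2 : Integrable (fun t => g t * f t) μ :=
        bi (hg.mul hf) (B := Cg * (c + η)) fun t => by
          rw [abs_mul]
          exact mul_le_mul (hgb t) (hfb t) (abs_nonneg _) ((abs_nonneg _).trans (hgb t))
      rw [integral_congr_ae e1, integral_sub i1 i2, integral_const_mul, hfg, integral_congr_ae hgψ,
        integral_const_mul]
      ring
    -- (B)
    have hB : D ≤ ∫ t, H t ∂μ + η * V := by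
      rw [← hfD]
      calc |∫ t, (f t - ψ t) ∂μ| ≤ ∫ t, |f t - ψ t| ∂μ := abs_integral_le_integral_abs
        _ ≤ ∫ t, (H t + η) ∂μ := by
            apply integral_mono_of_nonneg (Filter.Eventually.of_forall fun t => abs_nonneg _)
              (hHi.add (integrable_const η))
            refine Filter.Eventually.of_forall fun t => ?_
            show |f t - ψ t| ≤ H t + η
            have e1 : |f t - ψ t| = |ψ t * f t / c - c| := by
              have h1 : ψ t * f t / c - c = ψ t * (f t - ψ t) / c := by
                rw [mul_sub, hψψ]; field_simp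
              rw [h1, abs_div, abs_mul, hψ1, abs_of_pos hc]
              field_simp
            rw [e1]
            have h2 := (abs_le.1 (hx t)).2
            simp only [hH]
            rw [abs_le]
            constructor <;> linarith
        _ = _ := by
            rw [integral_add hHi (integrable_const η), integral_const, smul_eq_mul]
            ring
    -- (C)
    have hCC : ∫ t, H t ∂μ ≤ η * G / κ + (2 * c + 2) * μ.real {t | |g t| < κ} := by
      have hms : MeasurableSet {t | |g t| < κ} := measurableSet_lt hg.abs measurable_const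
      have i1 : Integrable (fun t => |g t| * H t / κ) μ :=
        bi ((hg.abs.mul hHm).div_const κ) (B := Cg * (2 * c + 2) / κ) fun t => by
          rw [abs_div, abs_mul, abs_abs, abs_of_pos hκ, abs_of_nonneg (hH0 t)]
          have := mul_le_mul (hgb t) (hH1 t) (hH0 t) ((abs_nonneg _).trans (hgb t))
          exact div_le_div_of_nonneg_right this hκ.le
      have i2 : Integrable ({t | |g t| < κ}.indicator fun _ => (2 * c + 2)) μ :=
        (integrable_const _).indicator hms
      calc ∫ t, H t ∂μ ≤ ∫ t, (|g t| * H t / κ + {t | |g t| < κ}.indicator (fun _ => (2 * c + 2)) t) ∂μ := by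
            apply integral_mono hHi (i1.add i2)
            intro t
            show H t ≤ |g t| * H t / κ + {t | |g t| < κ}.indicator (fun _ => (2 * c + 2)) t
            by_cases ht : |g t| < κ
            · rw [indicator_of_mem (show t ∈ {t | |g t| < κ} from ht)]
              have : 0 ≤ |g t| * H t / κ := div_nonneg (mul_nonneg (abs_nonneg _) (hH0 t)) hκ.le
              linarith [hH1 t]
            · rw [indicator_of_notMem (show t ∉ {t | |g t| < κ} from ht), add_zero, le_div_iff₀ hκ]
              push Not at ht
              rw [mul_comm]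
              exact mul_le_mul_of_nonneg_right ht (hH0 t)
        _ = _ := by
            rw [integral_add i1 i2, integral_div, hA, integral_indicator hms, setIntegral_const,
              smul_eq_mul]
            ring
    linarith
  -- small sets
  have hlim : Filter.Tendsto (fun n : ℕ => μ.real {t | |g t| < 1 / ((n : ℝ) + 1)}) Filter.atTop
      (nhds 0) := by
    have h1 := tendsto_measure_iInter_atTop (μ := μ) (s := fun n : ℕ => {t | |g t| < 1 / ((n : ℝ) + 1)})
      (fun n => (measurableSet_lt hg.abs measurable_const).nullMeasurableSet) (by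
        intro m n hmn t ht
        simp only [mem_ofPred_eq] at ht ⊢
        refine ht.trans_le ?_
        apply one_div_le_one_div_of_le (by positivity)
        have : (m : ℝ) ≤ n := by exact_mod_cast hmn
        linarith) ⟨0, measure_ne_top _ _⟩
    have h2 : ⋂ n : ℕ, {t | |g t| < 1 / ((n : ℝ) + 1)} = {t | g t = 0} := by
      ext t
      simp only [mem_iInter, mem_ofPred_eq]
      constructor
      · intro ht
        by_contra hne
        obtain ⟨n, hn⟩ := exists_nat_one_div_lt (abs_pos.2 hne)
        exact lt_asymm hn (ht n)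
      · intro ht n
        rw [ht, abs_zero]
        positivity
    rw [h2, hz] at h1
    have h3 := (ENNReal.tendsto_toReal ENNReal.zero_ne_top).comp h1
    exact h3
  -- choose
  have hc2 : 0 < 2 * c + 2 := by linarith
  obtain ⟨n, hn⟩ := ((hlim.eventually (gt_mem_nhds (show 0 < D / (2 * (2 * c + 2)) by positivity)))).exists
  set κ : ℝ := 1 / ((n : ℝ) + 1) with hκ
  have hκ0 : 0 < κ := by positivity
  set η : ℝ := min 1 (D / (4 * (V + G / κ + 1))) with hη
  have hGκ : 0 ≤ G / κ := div_nonneg hG0 hκ0.le
  have hpos : 0 < 4 * (V + G / κ + 1) := by linarith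
  have hη0 : 0 < η := lt_min one_pos (div_pos hD hpos)
  have h1 := key κ hκ0 η hη0 (min_le_left _ _)
  have h2 : η * V + η * G / κ ≤ D / 4 := by
    have h3 : η ≤ D / (4 * (V + G / κ + 1)) := min_le_right _ _
    rw [le_div_iff₀ hpos] at h3
    have h4 : η * V + η * G / κ = η * (V + G / κ) := by ring
    rw [h4]
    nlinarith
  have h5 : (2 * c + 2) * μ.real {t | |g t| < κ} ≤ D / 2 := by
    have := mul_le_mul_of_nonneg_left hn.le hc2.le
    refine this.trans (le_of_eq ?_)
    field_simp
  linarith

end Q8.TZ
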