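import Mathlib

/-! Positive semidefinite Toeplitz matrices: kernels vanish at a point of the circle, and a rank one
Toeplitz matrix can be subtracted. -/

open Matrix Polynomial Complex
open scoped ComplexOrder

namespace Q8.TZ

/-- coefficient vector -/
def vec (N : ℕ) (p : ℂ[X]) : Fin (N + 1) → ℂ := fun j => p.coeff j

lemma vec_add (N : ℕ) (p q : ℂ[X]) : vec N (p + q) = vec N p + vec N q := by
  funext j; simp [vec]

lemma vec_smul (N : ℕ) (c : ℂ) (p : ℂ[X]) : vec N (C c * p) = c • vec N p := by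
  funext j; simp [vec]

lemma vec_eq_zero {N : ℕ} {p : ℂ[X]} (hp : p.natDegree ≤ N) (h : vec N p = 0) : p = 0 := by
  ext k
  rcases Nat.lt_or_ge N k with hk | hk
  · rw [coeff_eq_zero_of_natDegree_lt (by omega)]; simp
  · have := congrFun h ⟨k, by omega⟩
    simpa [vec] using this

/-- the polynomial of a vector -/
noncomputable def pol (N : ℕ) (v : Fin (N + 1) → ℂ) : ℂ[X] := ∑ j, C (v j) * X ^ (j : ℕ)

lemma pol_coeff (N : ℕ) (v : Fin (N + 1) → ℂ) (k : Fin (N + 1)) : (pol N v).coeff k = v k := by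
  simp only [pol, finsetSum_coeff, coeff_C_mul, coeff_X_pow]
  rw [Finset.sum_eq_single k]
  · simp
  · intro b _ hb
    rw [if_neg]
    · simp
    · intro h; exact hb (Fin.ext h.symm)
  · simp

lemma vec_pol (N : ℕ) (v : Fin (N + 1) → ℂ) : vec N (pol N v) = v := by
  funext k; exact pol_coeff N v k

lemma pol_natDegree (N : ℕ) (v : Fin (N + 1) → ℂ) : (pol N v).natDegree ≤ N := by
  refine natDegree_sum_le_of_forall_le _ _ fun j _ => ?_
  refine (natDegree_C_mul_X_pow_le _ _).trans ?_
  omega

lemma pol_eval (N : ℕ) (v : Fin (N + 1) → ℂ) (z : ℂ) :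
    (pol N v).eval z = ∑ j, v j * z ^ (j : ℕ) := by
  simp [pol, eval_finsetSum]

/-- shift invariance of the Toeplitz form -/
lemma shift (N : ℕ) (a : ℤ → ℂ) (M : Matrix (Fin (N + 1)) (Fin (N + 1)) ℂ)
    (hM : ∀ j k, M j k = a ((j : ℤ) - (k : ℤ))) (p : ℂ[X]) (hp : p.natDegree < N) :
    star (vec N (X * p)) ⬝ᵥ (M *ᵥ vec N (X * p)) = star (vec N p) ⬝ᵥ (M *ᵥ vec N p) := by
  have hl : vec N p (Fin.last N) = 0 := by
    simp only [vec, Fin.val_last]
    exact coeff_eq_zero_of_natDegree_lt hp
  have h0 : vec N (X * p) 0 = 0 := by simp [vec]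
  have hs : ∀ i : Fin N, vec N (X * p) i.succ = vec N p i.castSucc := by
    intro i; simp [vec]
  have h1 : ∀ i : Fin N, (M *ᵥ vec N (X * p)) i.succ = (M *ᵥ vec N p) i.castSucc := by
    intro i
    simp only [mulVec, dotProduct]
    rw [Fin.sum_univ_succ, Fin.sum_univ_castSucc, h0, hl, mul_zero, mul_zero, zero_add, add_zero]
    refine Finset.sum_congr rfl fun l _ => ?_
    rw [hs, hM, hM]
    congr 2
    simp
  simp only [dotProduct]
  rw [Fin.sum_univ_succ, Fin.sum_univ_castSucc]
  simp only [Pi.star_apply]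
  rw [h0, hl, star_zero, zero_mul, zero_mul, zero_add, add_zero]
  refine Finset.sum_congr rfl fun i _ => ?_
  rw [hs, h1]

lemma kernel_root (N : ℕ) (a : ℤ → ℂ) (M : Matrix (Fin (N + 1)) (Fin (N + 1)) ℂ)
    (hM : ∀ j k, M j k = a ((j : ℤ) - (k : ℤ))) (hps : M.PosSemidef) (hne : M ≠ 0) :
    ∃ x : ℝ, ∀ v, M *ᵥ v = 0 → ∑ j, v j * exp (((j : ℕ) : ℂ) * (x * I)) = 0 := by
  classical
  by_cases hK : ∀ v, M *ᵥ v = 0 → v = 0
  · exact ⟨0, fun v hv => by simp [hK v hv]⟩
  push Not at hK
  obtain ⟨v0, hv0, hv0'⟩ := hK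
  let P : ℕ → Prop := fun d => ∃ p : ℂ[X], p ≠ 0 ∧ p.natDegree = d ∧ d ≤ N ∧ M *ᵥ vec N p = 0
  have hex : ∃ d, P d := by
    refine ⟨(pol N v0).natDegree, pol N v0, ?_, rfl, pol_natDegree N v0, by rw [vec_pol]; exact hv0⟩
    intro h
    apply hv0'
    rw [← vec_pol N v0, h]
    funext j; simp [vec]
  obtain ⟨p, hp0, hpd, hdN, hpM⟩ := Nat.find_spec hex
  have hmin : ∀ q : ℂ[X], q ≠ 0 → q.natDegree < Nat.find hex → M *ᵥ vec N q ≠ 0 := by
    intro q hq hqd h
    exact Nat.find_min hex hqd ⟨q, hq, rfl, by omega, h⟩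
  set d := Nat.find hex with hd
  -- kernel orthogonality
  have horth : ∀ u w, M *ᵥ u = 0 → star u ⬝ᵥ (M *ᵥ w) = 0 := by
    intro u w hu
    have h1 := hps.isHermitian
    rw [dotProduct_mulVec]
    have h2 : star u ᵥ* M = star (M *ᵥ u) := by
      rw [star_mulVec, h1.eq]
    rw [h2, hu]; simp
  have hd0 : d ≠ 0 := by
    intro h0
    rw [h0] at hpd
    obtain ⟨c, hc⟩ := natDegree_eq_zero.1 hpd
    have hc0 : c ≠ 0 := by rintro rfl; apply hp0; rw [← hc]; simp
    apply hne
    have hcol : ∀ j, M j 0 = 0 := by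
      intro j
      have := congrFun hpM j
      simp only [mulVec, dotProduct, vec, ← hc, Pi.zero_apply] at this
      rw [Finset.sum_eq_single 0] at this
      · simpa [hc0] using this
      · intro b _ hb
        rw [coeff_C, if_neg]
        · simp
        · intro h; exact hb (Fin.ext h)
      · simp
    have ha : ∀ k : ℕ, k ≤ N → a (k : ℤ) = 0 := by
      intro k hk
      have := hcol ⟨k, by omega⟩
      rw [hM] at this
      simpa using this
    have ha' : ∀ k : ℕ, k ≤ N → a (-(k : ℤ)) = 0 := by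
      intro k hk
      have h1 := hps.isHermitian.apply ⟨k, by omega⟩ 0
      rw [hM, hM] at h1
      simp only [Fin.val_zero, Nat.cast_zero, zero_sub, sub_zero] at h1
      have h2 := ha k hk
      rw [h2] at h1
      have : star (a (-(k : ℤ))) = 0 := by simpa using h1
      simpa using this
    ext j k
    rw [hM]
    rcases le_total (k : ℕ) (j : ℕ) with h | h
    · have e : (j : ℤ) - (k : ℤ) = (((j : ℕ) - (k : ℕ) : ℕ) : ℤ) := by push_cast [h]; rfl
      rw [e, ha _ (by omega)]; rfl
    · have e : (j : ℤ) - (k : ℤ) = -(((k : ℕ) - (j : ℕ) : ℕ) : ℤ) := by push_cast [h]; ring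
      rw [e, ha' _ (by omega)]; rfl
  -- a root
  obtain ⟨α, hα⟩ := Complex.exists_root (f := p) (by
    rw [← natDegree_pos_iff_degree_pos, hpd]; omega)
  obtain ⟨q, hq⟩ := dvd_iff_isRoot.2 hα
  have hq0 : q ≠ 0 := by rintro rfl; apply hp0; rw [hq]; simp
  have hqd : q.natDegree + 1 = d := by
    rw [← hpd, hq, natDegree_mul (X_sub_C_ne_zero α) hq0, natDegree_X_sub_C]; ring
  have hX : X * q = C α * q + p := by rw [hq]; ring
  have hQ1 := shift N a M hM q (by omega)
  have hQq : star (vec N q) ⬝ᵥ (M *ᵥ vec N q) ≠ 0 := by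
    rw [Ne, hps.dotProduct_mulVec_zero_iff]
    exact hmin q hq0 (by omega)
  have hQ2 : star (vec N (X * q)) ⬝ᵥ (M *ᵥ vec N (X * q))
      = (star α * α) * (star (vec N q) ⬝ᵥ (M *ᵥ vec N q)) := by
    rw [hX, vec_add, vec_smul, mulVec_add, hpM, add_zero, mulVec_smul, star_add, add_dotProduct,
      dotProduct_smul, dotProduct_smul, horth _ _ hpM, star_smul, smul_dotProduct]
    simp only [smul_eq_mul, mul_zero, add_zero]
    ring
  have hα1 : star α * α = 1 := by
    rw [hQ1] at hQ2
    have : (star α * α - 1) * (star (vec N q) ⬝ᵥ (M *ᵥ vec N q)) = 0 := by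
      rw [sub_mul, ← hQ2]; ring
    rcases mul_eq_zero.1 this with h | h
    · linear_combination h
    · exact absurd h hQq
  have hnorm : ‖α‖ = 1 := by
    have h1 : ((‖α‖ : ℝ) : ℂ) ^ 2 = 1 := by
      rw [← hα1]
      have := Complex.conj_mul' α
      rw [← this]; rfl
    have h2 : ‖α‖ ^ 2 = 1 := by exact_mod_cast h1
    nlinarith [norm_nonneg α]
  have hαe : exp ((α.arg : ℂ) * I) = α := by
    have := Complex.norm_mul_exp_arg_mul_I α
    rw [hnorm] at this
    simpa using this
  -- shifts of p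
  have hshift : ∀ j, j + d ≤ N → M *ᵥ vec N (X ^ j * p) = 0 := by
    intro j
    induction j with
    | zero => intro _; simpa using hpM
    | succ j ih =>
      intro hj
      have h1 := ih (by omega)
      have h2 := shift N a M hM (X ^ j * p) (by
        rw [natDegree_mul (pow_ne_zero _ X_ne_zero) hp0, natDegree_X_pow, hpd]; omega)
      rw [h1, dotProduct_zero, hps.dotProduct_mulVec_zero_iff] at h2
      rw [pow_succ', mul_assoc]
      exact h2
  have hall : ∀ n : ℕ, ∀ u : ℂ[X], u.natDegree ≤ n → n ≤ N → M *ᵥ vec N u = 0 → u.eval α = 0 := by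
    intro n
    induction n using Nat.strong_induction_on with
    | _ n ih =>
      intro u hun hnN hu
      by_cases hu0 : u = 0
      · simp [hu0]
      have hde : d ≤ u.natDegree := by
        by_contra hlt
        push Not at hlt
        exact hmin u hu0 hlt hu
      set w := C (u.leadingCoeff / p.leadingCoeff) * (X ^ (u.natDegree - d) * p) with hw
      have hlp : p.leadingCoeff ≠ 0 := leadingCoeff_ne_zero.2 hp0
      have hlu : u.leadingCoeff ≠ 0 := leadingCoeff_ne_zero.2 hu0
      have hXp : X ^ (u.natDegree - d) * p ≠ 0 := mul_ne_zero (pow_ne_zero _ X_ne_zero) hp0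
      have hwd : w.natDegree = u.natDegree := by
        rw [hw, natDegree_C_mul (div_ne_zero hlu hlp),
          natDegree_mul (pow_ne_zero _ X_ne_zero) hp0, natDegree_X_pow, hpd]
        omega
      have hw0 : w ≠ 0 := by
        rw [hw]
        exact mul_ne_zero (C_ne_zero.2 (div_ne_zero hlu hlp)) hXp
      have hwl : w.leadingCoeff = u.leadingCoeff := by
        rw [hw, leadingCoeff_mul, leadingCoeff_C, leadingCoeff_mul, leadingCoeff_X_pow, one_mul]
        field_simp
      have hwα : w.eval α = 0 := by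
        rw [hw]
        simp only [eval_mul]
        rw [show p.eval α = 0 from hα]
        ring
      have hwM : M *ᵥ vec N w = 0 := by
        rw [hw, vec_smul, mulVec_smul, hshift _ (by omega), smul_zero]
      have huw : M *ᵥ vec N (u - w) = 0 := by
        have e : vec N (u - w) = vec N u - vec N w := by funext j; simp [vec]
        rw [e, mulVec_sub, hu, hwM, sub_zero]
      have hlt : (u - w).degree < u.degree := by
        apply degree_sub_lt_left
        · rw [degree_eq_natDegree hu0, degree_eq_natDegree hw0, hwd]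
        · exact hu0
        · exact hwl.symm
      have hres : (u - w).eval α = 0 := by
        by_cases h0 : u - w = 0
        · rw [h0]; simp
        · have hlt' : (u - w).natDegree < u.natDegree := natDegree_lt_natDegree h0 hlt
          exact ih (u - w).natDegree (by omega) (u - w) le_rfl (by omega) huw
      have := congrArg (fun t => t) hres
      rw [eval_sub, hwα, sub_zero] at hres
      exact hres
  refine ⟨α.arg, fun v hv => ?_⟩
  have h := hall N (pol N v) (pol_natDegree N v) le_rfl (by rw [vec_pol]; exact hv)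
  rw [pol_eval] at h
  rw [← h]
  refine Finset.sum_congr rfl fun j _ => ?_
  rw [Complex.exp_nat_mul, hαe]

end Q8.TZ
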