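import Pool.Agent.Q8.TZ.Est

/-! Alternating step functions. -/

open Complex MeasureTheory Set

namespace Q8.TZ

lemma stp_meas (n : ℕ) (c ε : ℝ) (t : Fin (2 * n) → ℝ) : Measurable (stp n c ε t) := by
  unfold stp
  apply Measurable.mul measurable_const
  have : (fun s : ℝ => ((-1 : ℝ)) ^ (Finset.univ.filter fun j => t j ≤ s).card)
      = fun s => ∏ j, if t j ≤ s then (-1 : ℝ) else 1 := by
    funext s
    rw [Finset.prod_ite, Finset.prod_const, Finset.prod_const_one, mul_one]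
  rw [this]
  refine Finset.measurable_prod _ fun j _ => ?_
  exact Measurable.ite (measurableSet_le measurable_const measurable_id) measurable_const
    measurable_const

lemma stp_abs (n : ℕ) (c ε : ℝ) (hc : 0 < c) (hε : ε = 1 ∨ ε = -1) (t : Fin (2 * n) → ℝ) (s : ℝ) :
    |stp n c ε t s| = c := by
  unfold stp
  rw [abs_mul, abs_mul, abs_pow, abs_neg, abs_one, one_pow, mul_one, abs_of_pos hc]
  rcases hε with h | h <;> simp [h]

lemma sin_sign {s u : ℝ} (hs : s ∈ Ico 0 (2 * Real.pi)) (hu : u ∈ Ico 0 (2 * Real.pi)) :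
    Real.sin ((s - u) / 2) = (if u ≤ s then 1 else -1) * |Real.sin ((s - u) / 2)| := by
  split_ifs with h
  · rw [one_mul, abs_of_nonneg]
    apply Real.sin_nonneg_of_nonneg_of_le_pi
    · linarith
    · linarith [hs.2, hu.1]
  · push Not at h
    rw [abs_of_nonpos]
    · ring
    · apply Real.sin_nonpos_of_nonpos_of_neg_pi_le
      · linarith
      · linarith [hs.1, hu.2]

lemma prod_sign (n : ℕ) (t : Fin (2 * n) → ℝ) (ht : ∀ j, t j ∈ Ico 0 (2 * Real.pi)) {s : ℝ}
    (hs : s ∈ Ico 0 (2 * Real.pi)) :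
    (∏ j, Real.sin ((s - t j) / 2)) * (-1) ^ (Finset.univ.filter fun j => t j ≤ s).card
      = |∏ j, Real.sin ((s - t j) / 2)| := by
  have h1 : ∏ j, Real.sin ((s - t j) / 2)
      = (∏ j, if t j ≤ s then (1 : ℝ) else -1) * |∏ j, Real.sin ((s - t j) / 2)| := by
    rw [Finset.abs_prod, ← Finset.prod_mul_distrib]
    exact Finset.prod_congr rfl fun j _ => sin_sign hs (ht j)
  have h2 : (∏ j, if t j ≤ s then (1 : ℝ) else -1)
      * (-1) ^ (Finset.univ.filter fun j => t j ≤ s).card = 1 := by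
    rw [Finset.prod_ite, Finset.prod_const_one, one_mul, Finset.prod_const, ← pow_add]
    have h3 : (Finset.univ.filter fun j => ¬ t j ≤ s).card
        + (Finset.univ.filter fun j => t j ≤ s).card = 2 * n := by
      rw [add_comm, Finset.card_filter_add_card_filter_not]
      simp
    rw [h3, pow_mul]
    simp
  calc (∏ j, Real.sin ((s - t j) / 2)) * (-1) ^ (Finset.univ.filter fun j => t j ≤ s).card
      = ((∏ j, if t j ≤ s then (1 : ℝ) else -1) * |∏ j, Real.sin ((s - t j) / 2)|)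
        * (-1) ^ (Finset.univ.filter fun j => t j ≤ s).card := by rw [← h1]
    _ = ((∏ j, if t j ≤ s then (1 : ℝ) else -1)
        * (-1) ^ (Finset.univ.filter fun j => t j ≤ s).card) * |∏ j, Real.sin ((s - t j) / 2)| := by
        ring
    _ = _ := by rw [h2, one_mul]

/-- the extremal trigonometric polynomial -/
noncomputable def gfun (n : ℕ) (ε : ℝ) (t : Fin (2 * n) → ℝ) (x s : ℝ) : ℝ :=
  ε * (∏ j, Real.sin ((s - t j) / 2)) * (1 - Real.cos (s - x))

lemma gfun_mem (n : ℕ) (ε : ℝ) (t : Fin (2 * n) → ℝ) (x : ℝ) :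
    (fun s => ((gfun n ε t x s : ℝ) : ℂ)) ∈ TP (n + 1) := by
  let t' : ℕ → ℝ := fun j => if h : j < 2 * n then t ⟨j, h⟩ else 0
  have e1 : ∀ s : ℝ, ∏ j, Real.sin ((s - t j) / 2)
      = ∏ j ∈ Finset.range (2 * n), Real.sin ((s - t' j) / 2) := by
    intro s
    rw [Finset.prod_range]
    refine Finset.prod_congr rfl fun j _ => ?_
    simp [t']
  have e2 : (fun s => ((gfun n ε t x s : ℝ) : ℂ))
      = ((ε : ℂ) • (fun s : ℝ => ((∏ j ∈ Finset.range (2 * n), Real.sin ((s - t' j) / 2) : ℝ) : ℂ)))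
        * ((fun _ : ℝ => (1 : ℂ)) - fun s : ℝ => ((Real.cos (s - x) : ℝ) : ℂ)) := by
    funext s
    simp only [gfun, Pi.mul_apply, Pi.smul_apply, Pi.sub_apply, smul_eq_mul]
    rw [e1]
    push_cast
    ring
  rw [e2]
  exact TP_mul ((TP n).smul_mem _ (prod_mem t' n)) ((TP 1).sub_mem (const_mem 1 1) (cos_mem x))

lemma gfun_zero (n : ℕ) (ε : ℝ) (hε : ε = 1 ∨ ε = -1) (t : Fin (2 * n) → ℝ) (x : ℝ) :
    {s | gfun n ε t x s = 0}.Countable := by
  have hsub : {s | gfun n ε t x s = 0} ⊆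
      (⋃ j : Fin (2 * n), range fun k : ℤ => t j + 2 * (k * Real.pi)) ∪
        range fun k : ℤ => x + k * (2 * Real.pi) := by
    intro s hs
    simp only [mem_ofPred_eq, gfun] at hs
    have hε' : ε ≠ 0 := by rcases hε with h | h <;> simp [h]
    rcases mul_eq_zero.1 hs with h | h
    · rcases mul_eq_zero.1 h with h | h
      · exact absurd h hε'
      · left
        obtain ⟨j, -, hj⟩ := Finset.prod_eq_zero_iff.1 h
        obtain ⟨k, hk⟩ := Real.sin_eq_zero_iff.1 hj
        refine mem_iUnion.2 ⟨j, k, ?_⟩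
        show t j + 2 * (k * Real.pi) = s
        rw [hk]; ring
    · right
      have h1 : Real.cos (s - x) = 1 := by linarith
      obtain ⟨k, hk⟩ := (Real.cos_eq_one_iff _).1 h1
      exact ⟨k, by show x + k * (2 * Real.pi) = s; rw [hk]; ring⟩
  refine Set.Countable.mono hsub ?_
  exact (countable_iUnion fun j => countable_range _).union (countable_range _)

lemma re_int {f : ℝ → ℂ} (hf : Measurable f) {C : ℝ} (hC : ∀ t, ‖f t‖ ≤ C) {ψ : ℝ → ℝ}
    (hψ : Measurable ψ) {C' : ℝ} (hC' : ∀ t, |ψ t| ≤ C') (N : ℕ) (x w : ℝ)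
    (h : ∀ k : ℤ, |k| ≤ N → fc f k = fc (fun s => (ψ s : ℂ)) k + (w : ℂ) * ch k x) {g : ℝ → ℝ}
    (hg : (fun s => (g s : ℂ)) ∈ TP N) :
    ∫ t in Ioo 0 (2 * Real.pi), g t * (f t).re
      = (∫ t in Ioo 0 (2 * Real.pi), g t * ψ t) + 2 * Real.pi * w * g x := by
  have hψc : Measurable fun s => (ψ s : ℂ) := Complex.measurable_ofReal.comp hψ
  have hC'c : ∀ t, ‖((ψ t : ℝ) : ℂ)‖ ≤ C' := fun t => by
    rw [Complex.norm_real]; exact hC' t
  obtain ⟨hc, hi⟩ := tp_int hf hC hψc hC'c N x (w : ℂ) h hg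
  have hpi : (0 : ℝ) ≤ 2 * Real.pi := by positivity
  have m1 := (bdd_int hf hC 0 (2 * Real.pi)).continuousOn_mul hc.continuousOn
  rw [intervalIntegral.integral_of_le hpi, intervalIntegral.integral_of_le hpi,
    integral_Ioc_eq_integral_Ioo, integral_Ioc_eq_integral_Ioo] at hi
  have m2 : IntegrableOn (fun t => (g t : ℂ) * f t) (Ioo 0 (2 * Real.pi)) volume := by
    rw [intervalIntegrable_iff_integrableOn_Ioo_of_le hpi] at m1
    exact m1
  have h1 := congrArg Complex.re hi
  have h2 : (∫ t in Ioo 0 (2 * Real.pi), (g t : ℂ) * f t).re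
      = ∫ t in Ioo 0 (2 * Real.pi), g t * (f t).re := by
    have h3 := integral_re (𝕜 := ℂ) m2
    simp only [RCLike.re_to_complex] at h3
    rw [← h3]
    congr 1
    funext t
    exact (Complex.re_ofReal_mul _ _)
  have h4 : (∫ t in Ioo 0 (2 * Real.pi), (g t : ℂ) * (ψ t : ℂ))
      = ((∫ t in Ioo 0 (2 * Real.pi), g t * ψ t : ℝ) : ℂ) := by
    have h5 := integral_ofReal (𝕜 := ℂ) (μ := volume.restrict (Ioo 0 (2 * Real.pi)))
      (f := fun t => g t * ψ t)
    refine Eq.trans ?_ h5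
    congr 1
    funext t
    push_cast
    rfl
  rw [h2, h4] at h1
  rw [h1]
  have e : (2 * (Real.pi : ℂ) * (w : ℂ) * (g x : ℂ)) = ((2 * Real.pi * w * g x : ℝ) : ℂ) := by
    push_cast; ring
  rw [Complex.add_re, Complex.ofReal_re, e, Complex.ofReal_re]

lemma no_f (N n : ℕ) (hn : n + 1 ≤ N) (c ε : ℝ) (hc : 0 < c) (hε : ε = 1 ∨ ε = -1)
    (t : Fin (2 * n) → ℝ) (ht : ∀ j, t j ∈ Ico 0 (2 * Real.pi)) (x w σ : ℝ) (hw : 0 < w)
    (hσ : σ = 1 ∨ σ = -1)
    (h : ∀ η : ℝ, 0 < η → ∃ f : ℝ → ℂ, Measurable f ∧ (∀ s, ‖f s‖ ≤ c + η) ∧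
      ∀ k : ℤ, |k| ≤ N → fc f k = fc (fun s => (stp n c ε t s : ℂ)) k
        + ((σ * w : ℝ) : ℂ) * ch k x) : False := by
  have hgm := TP_mono hn (gfun_mem n ε t x)
  have hψm := stp_meas n c ε t
  have hψ1 := stp_abs n c ε hc hε t
  have hgc : Continuous (gfun n ε t x) := by
    unfold gfun
    fun_prop
  have hgb : ∀ s, |gfun n ε t x s| ≤ 2 := by
    intro s
    unfold gfun
    rw [abs_mul, abs_mul, Finset.abs_prod]
    have h1 : |ε| = 1 := by rcases hε with h | h <;> simp [h]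
    have h2 : ∏ j, |Real.sin ((s - t j) / 2)| ≤ 1 :=
      Finset.prod_le_one (fun j _ => abs_nonneg _) fun j _ => Real.abs_sin_le_one _
    have h3 : |1 - Real.cos (s - x)| ≤ 2 := by
      rw [abs_le]
      constructor <;> linarith [Real.cos_le_one (s - x), Real.neg_one_le_cos (s - x)]
    have h4 : 0 ≤ ∏ j, |Real.sin ((s - t j) / 2)| := Finset.prod_nonneg fun j _ => abs_nonneg _
    rw [h1, one_mul]
    nlinarith [abs_nonneg (1 - Real.cos (s - x))]
  have hgψ : ∀ s ∈ Ioo 0 (2 * Real.pi), gfun n ε t x s * stp n c ε t s = c * |gfun n ε t x s| := by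
    intro s hs
    have h1 := prod_sign n t ht (s := s) ⟨hs.1.le, hs.2⟩
    have h2 : 0 ≤ 1 - Real.cos (s - x) := by linarith [Real.cos_le_one (s - x)]
    have h3 : |ε| = 1 := by rcases hε with h | h <;> simp [h]
    have h4 : ε * ε = 1 := by rcases hε with h | h <;> simp [h]
    unfold gfun stp
    rw [abs_mul, abs_mul, h3, one_mul, abs_of_nonneg h2, ← h1]
    calc ε * (∏ j, Real.sin ((s - t j) / 2)) * (1 - Real.cos (s - x))
        * (ε * c * (-1) ^ (Finset.univ.filter fun j => t j ≤ s).card)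
        = (ε * ε) * (c * ((∏ j, Real.sin ((s - t j) / 2))
          * (-1) ^ (Finset.univ.filter fun j => t j ≤ s).card * (1 - Real.cos (s - x)))) := by ring
      _ = _ := by rw [h4, one_mul]
  have hgx : gfun n ε t x x = 0 := by simp [gfun]
  refine est (μ := volume.restrict (Ioo 0 (2 * Real.pi))) hc hψm hψ1 hgc.measurable hgb ?_ ?_
    (D := 2 * Real.pi * w) (by positivity) ?_
  · rw [ae_restrict_iff' measurableSet_Ioo]
    exact Filter.Eventually.of_forall hgψ
  · exact le_antisymm ((Measure.restrict_apply_le _ _).trans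
      ((gfun_zero n ε hε t x).measure_zero volume).le) bot_le
  · intro η hη
    obtain ⟨f, hf, hfb, hfc⟩ := h η hη
    refine ⟨fun s => (f s).re, Complex.measurable_re.comp hf,
      fun s => (Complex.abs_re_le_norm _).trans (hfb s), ?_, ?_⟩
    · have := re_int hf hfb hψm (C' := c) (fun s => (hψ1 s).le) N x (σ * w) hfc hgm
      rw [this, hgx, mul_zero, add_zero]
    · have h1 : (fun _ : ℝ => (((1 : ℝ)) : ℂ)) ∈ TP N := by
        simpa using const_mem N 1
      have h2 := re_int hf hfb hψm (C' := c) (fun s => (hψ1 s).le) N x (σ * w) hfc (g := fun _ => 1) h1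
      simp only [one_mul, mul_one] at h2
      have i1 : Integrable (fun s => (f s).re) (volume.restrict (Ioo 0 (2 * Real.pi))) :=
        Integrable.of_bound (Complex.measurable_re.comp hf).aestronglyMeasurable (c + η)
          (Filter.Eventually.of_forall fun s => (Complex.abs_re_le_norm _).trans (hfb s))
      have i2 : Integrable (stp n c ε t) (volume.restrict (Ioo 0 (2 * Real.pi))) :=
        Integrable.of_bound hψm.aestronglyMeasurable c
          (Filter.Eventually.of_forall fun s => (hψ1 s).le)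
      have h3 : |σ| = 1 := by rcases hσ with h | h <;> simp [h]
      rw [integral_sub i1 i2, h2, add_sub_cancel_left, abs_mul, abs_mul σ w, h3, one_mul,
        abs_of_pos hw, abs_of_pos (by positivity : 0 < 2 * Real.pi)]

end Q8.TZ
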