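import Pool.Agent.Q8.TZ.Rank
import Pool.Agent.Q8.TZ.Step

/-! Maximizers of the Toeplitz mini-max ratio have full order. -/

open Matrix Complex MeasureTheory Set
open scoped ComplexOrder

namespace Q8.TZ

/-- Toeplitz matrices -/
def IsToep (N : ℕ) (A : Matrix (Fin (N + 1)) (Fin (N + 1)) ℂ) : Prop :=
  ∃ a : ℤ → ℂ, ∀ j k, A j k = a ((j : ℤ) - (k : ℤ))

/-- the set of the bounds of the symbols of `A` -/
def symb (N : ℕ) (A : Matrix (Fin (N + 1)) (Fin (N + 1)) ℂ) : Set ℝ :=
  {C : ℝ | 0 ≤ C ∧ ∃ f : ℝ → ℂ, Measurable f ∧ (∀ s, ‖f s‖ ≤ C) ∧ toep N f = A}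

/-- least sup norm of a symbol -/
noncomputable def cVal (N : ℕ) (A : Matrix (Fin (N + 1)) (Fin (N + 1)) ℂ) : ℝ := sInf (symb N A)

/-- all ratios -/
def ratios (N : ℕ) : Set ℝ :=
  {r | ∃ A : Matrix (Fin (N + 1)) (Fin (N + 1)) ℂ, A ≠ 0 ∧ A.IsHermitian ∧ IsToep N A ∧
    r = cVal N A / nrm A}

/-- the maximal ratio -/
noncomputable def cMax (N : ℕ) : ℝ := sSup (ratios N)

lemma symb_bdd (N : ℕ) (A : Matrix (Fin (N + 1)) (Fin (N + 1)) ℂ) : BddBelow (symb N A) :=
  ⟨0, fun _ h => h.1⟩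

lemma nrm_nonneg {n : Type*} [Fintype n] [DecidableEq n] (A : Matrix n n ℂ) : 0 ≤ nrm A :=
  norm_nonneg _

lemma entry_le {n : Type*} [Fintype n] [DecidableEq n] (A : Matrix n n ℂ) (j k : n) :
    ‖A j k‖ ≤ nrm A := by
  have h1 : A j k = (Matrix.toEuclideanCLM (n := n) (𝕜 := ℂ) A (EuclideanSpace.single k 1)) j := by
    rw [ofLp_toEuclideanCLM]
    simp
  rw [h1]
  calc ‖(Matrix.toEuclideanCLM (n := n) (𝕜 := ℂ) A (EuclideanSpace.single k 1)) j‖
      ≤ ‖Matrix.toEuclideanCLM (n := n) (𝕜 := ℂ) A (EuclideanSpace.single k 1)‖ :=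
        PiLp.norm_apply_le _ _
    _ ≤ nrm A * ‖(EuclideanSpace.single k 1 : EuclideanSpace ℂ n)‖ :=
        ContinuousLinearMap.le_opNorm _ _
    _ = nrm A := by simp

lemma nrm_eq_zero {n : Type*} [Fintype n] [DecidableEq n] {A : Matrix n n ℂ} (h : nrm A = 0) :
    A = 0 := by
  ext j k
  have := entry_le A j k
  rw [h] at this
  exact norm_le_zero_iff.1 this

lemma nrm_one (N : ℕ) : nrm (1 : Matrix (Fin (N + 1)) (Fin (N + 1)) ℂ) = 1 := by
  unfold nrm
  rw [map_one, norm_one]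

lemma exp_int (k : ℤ) (hk : k ≠ 0) :
    ∫ t in (0 : ℝ)..(2 * Real.pi), exp ((k : ℂ) * (t * I)) = 0 := by
  have h0 : (k : ℂ) * I ≠ 0 := mul_ne_zero (by exact_mod_cast hk) I_ne_zero
  have e1 : ∀ t : ℝ, exp ((k : ℂ) * (t * I)) = exp (((k : ℂ) * I) * t) := by
    intro t; congr 1; ring
  simp only [e1]
  rw [integral_exp_mul_complex h0]
  have e2 : (k : ℂ) * I * ((2 * Real.pi : ℝ) : ℂ) = (k : ℂ) * (2 * Real.pi * I) := by
    push_cast; ring
  rw [e2, Complex.exp_int_mul_two_pi_mul_I]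
  simp

/-- the trigonometric polynomial with given coefficients -/
noncomputable def tpol (N : ℕ) (a : ℤ → ℂ) : ℝ → ℂ :=
  fun s => ∑ k ∈ Finset.Icc (-(N : ℤ)) N, a k * exp ((k : ℂ) * (s * I))

lemma fc_tpol (N : ℕ) (a : ℤ → ℂ) (m : ℤ) (hm : |m| ≤ N) : fc (tpol N a) m = a m := by
  have hpi : (2 * (Real.pi : ℂ)) ≠ 0 := by simp [Real.pi_ne_zero]
  unfold fc tpol
  have e1 : ∀ t : ℝ, (∑ k ∈ Finset.Icc (-(N : ℤ)) N, a k * exp ((k : ℂ) * (t * I)))
      * exp (-((m : ℂ) * (t * I)))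
      = ∑ k ∈ Finset.Icc (-(N : ℤ)) N, a k * exp (((k - m : ℤ) : ℂ) * (t * I)) := by
    intro t
    rw [Finset.sum_mul]
    refine Finset.sum_congr rfl fun k _ => ?_
    rw [mul_assoc, ← Complex.exp_add]
    congr 2
    push_cast
    ring
  simp only [e1]
  rw [intervalIntegral.integral_finsetSum]
  · rw [Finset.sum_eq_single m]
    · simp only [sub_self, Int.cast_zero, zero_mul, Complex.exp_zero, mul_one]
      rw [intervalIntegral.integral_const]
      simp only [sub_zero, Complex.real_smul]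
      push_cast
      field_simp
    · intro k _ hk
      rw [intervalIntegral.integral_const_mul, exp_int _ (sub_ne_zero.2 hk), mul_zero]
    · intro h
      exact absurd (Finset.mem_Icc.2 (abs_le.1 hm)) h
  · intro k _
    apply Continuous.intervalIntegrable
    fun_prop

lemma symb_mem (N : ℕ) (A : Matrix (Fin (N + 1)) (Fin (N + 1)) ℂ) (hA : IsToep N A) :
    (2 * (N : ℝ) + 1) * nrm A ∈ symb N A := by
  obtain ⟨a, ha⟩ := hA
  have hb : ∀ k : ℤ, |k| ≤ N → ‖a k‖ ≤ nrm A := by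
    intro k hk
    rcases le_total 0 k with h | h
    · obtain ⟨j, rfl⟩ := Int.eq_ofNat_of_zero_le h
      have hj : j < N + 1 := by
        rw [abs_of_nonneg h] at hk
        omega
      have := entry_le A ⟨j, hj⟩ 0
      rw [ha] at this
      simpa using this
    · obtain ⟨j, hj'⟩ := Int.eq_ofNat_of_zero_le (neg_nonneg.2 h)
      have hk' : k = -(j : ℤ) := by omega
      subst hk'
      have hj : j < N + 1 := by
        rw [abs_neg, Nat.abs_cast] at hk
        omega
      have := entry_le A 0 ⟨j, hj⟩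
      rw [ha] at this
      simpa using this
  refine ⟨by have := nrm_nonneg A; positivity, tpol N a, ?_, ?_, ?_⟩
  · unfold tpol
    apply Continuous.measurable
    fun_prop
  · intro s
    unfold tpol
    refine (norm_sum_le _ _).trans ?_
    calc ∑ k ∈ Finset.Icc (-(N : ℤ)) N, ‖a k * exp ((k : ℂ) * (s * I))‖
        ≤ ∑ k ∈ Finset.Icc (-(N : ℤ)) N, nrm A := by
          refine Finset.sum_le_sum fun k hk => ?_
          rw [norm_mul]
          have e : (k : ℂ) * (s * I) = ((k * s : ℝ) : ℂ) * I := by push_cast; ring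
          rw [e, Complex.norm_exp_ofReal_mul_I, mul_one]
          exact hb k (abs_le.2 (Finset.mem_Icc.1 hk))
      _ = (2 * (N : ℝ) + 1) * nrm A := by
          rw [Finset.sum_const, Int.card_Icc, nsmul_eq_mul]
          congr 1
          have : ((N : ℤ) + 1 - -(N : ℤ)).toNat = 2 * N + 1 := by omega
          rw [this]
          push_cast
          ring
  · ext j k
    simp only [toep, Matrix.of_apply]
    rw [fc_tpol, ha]
    rw [abs_le]
    constructor <;> omega

lemma cVal_le (N : ℕ) (A : Matrix (Fin (N + 1)) (Fin (N + 1)) ℂ) (hA : IsToep N A) :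
    cVal N A ≤ (2 * (N : ℝ) + 1) * nrm A := csInf_le (symb_bdd N A) (symb_mem N A hA)

lemma ratios_bdd (N : ℕ) : BddAbove (ratios N) := by
  refine ⟨2 * (N : ℝ) + 1, ?_⟩
  rintro r ⟨A, hA0, -, hA, rfl⟩
  have hpos : 0 < nrm A := lt_of_le_of_ne (nrm_nonneg A) fun h => hA0 (nrm_eq_zero h.symm)
  rw [div_le_iff₀ hpos]
  exact cVal_le N A hA

lemma fc_zero_le {f : ℝ → ℂ} {C : ℝ} (hC : ∀ s, ‖f s‖ ≤ C) : ‖fc f 0‖ ≤ C := by
  unfold fc
  have h1 : ‖∫ t in (0 : ℝ)..(2 * Real.pi), f t * exp (-(((0 : ℤ) : ℂ) * (t * I)))‖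
      ≤ C * |2 * Real.pi - 0| := by
    apply intervalIntegral.norm_integral_le_of_norm_le_const
    intro t _
    simpa using hC t
  rw [norm_mul]
  have e : ‖(1 / (2 * (Real.pi : ℂ)))‖ = 1 / (2 * Real.pi) := by
    rw [norm_div, norm_mul, Complex.norm_real, norm_one]
    simp [abs_of_pos Real.pi_pos]
  rw [e, sub_zero, abs_of_pos (by positivity : 0 < 2 * Real.pi)] at *
  rw [one_div, inv_mul_le_iff₀ (by positivity)]
  linarith

lemma one_le_cMax (N : ℕ) : 1 ≤ cMax N := by
  have hT : IsToep N (1 : Matrix (Fin (N + 1)) (Fin (N + 1)) ℂ) := by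
    refine ⟨fun k => if k = 0 then 1 else 0, fun j k => ?_⟩
    rw [Matrix.one_apply]
    by_cases h : j = k
    · simp [h]
    · rw [if_neg h]
      show (0 : ℂ) = if ((j : ℤ) - (k : ℤ)) = 0 then 1 else 0
      rw [if_neg]
      intro h'
      apply h
      ext
      omega
  have h1 : cVal N 1 / nrm (1 : Matrix (Fin (N + 1)) (Fin (N + 1)) ℂ) ∈ ratios N :=
    ⟨1, one_ne_zero, Matrix.isHermitian_one, hT, rfl⟩
  have h2 : 1 ≤ cVal N 1 := by
    apply le_csInf ⟨_, symb_mem N 1 hT⟩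
    rintro C ⟨-, f, -, hf, hfA⟩
    have h3 := congrFun (congrFun hfA 0) 0
    simp only [toep, Matrix.of_apply, Matrix.one_apply_eq, sub_self] at h3
    have h4 := fc_zero_le hf
    rw [h3, norm_one] at h4
    exact h4
  have h3 := le_csSup (ratios_bdd N) h1
  rw [nrm_one, div_one] at h3
  exact h2.trans h3

lemma fc_conj (ψ : ℝ → ℝ) (k : ℤ) :
    star (fc (fun s => (ψ s : ℂ)) k) = fc (fun s => (ψ s : ℂ)) (-k) := by
  unfold fc
  have hpi : (0 : ℝ) ≤ 2 * Real.pi := by positivity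
  rw [star_mul', intervalIntegral.integral_of_le hpi, intervalIntegral.integral_of_le hpi]
  congr 1
  · simp
  · rw [Complex.star_def, ← integral_conj]
    congr 1
    funext t
    rw [map_mul, Complex.conj_ofReal, ← Complex.exp_conj]
    congr 2
    simp

lemma toep_herm (N : ℕ) (ψ : ℝ → ℝ) : (toep N (fun s => (ψ s : ℂ))).IsHermitian := by
  ext j k
  simp only [Matrix.conjTranspose_apply, toep, Matrix.of_apply]
  rw [fc_conj]
  congr 1
  ring

theorem main (N n : ℕ) (hn : n ≤ N) (c ε : ℝ) (hc : 0 < c) (hε : ε = 1 ∨ ε = -1)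
    (t : Fin (2 * n) → ℝ) (ht : ∀ j, t j ∈ Ico 0 (2 * Real.pi))
    (hmax : c / nrm (toep N (fun s => (stp n c ε t s : ℂ))) = cMax N) : n = N := by
  by_contra hne
  have hn1 : n + 1 ≤ N := by omega
  set A := toep N (fun s => (stp n c ε t s : ℂ)) with hA
  have hAh : A.IsHermitian := toep_herm N _
  have hcm := one_le_cMax N
  set m := nrm A with hm
  have hm0 : 0 < m := by
    rcases (nrm_nonneg A).lt_or_eq with h | h
    · exact h
    · rw [hm, ← h, div_zero] at hmax
      linarith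
  -- choose the sign
  obtain ⟨σ, hσ, hσ0⟩ : ∃ σ : ℝ, (σ = 1 ∨ σ = -1) ∧
      ((m : ℂ) • (1 : Matrix (Fin (N + 1)) (Fin (N + 1)) ℂ) - (σ : ℂ) • A) ≠ 0 := by
    by_contra hcon
    push Not at hcon
    have h1 := hcon 1 (Or.inl rfl)
    have h2 := hcon (-1) (Or.inr rfl)
    have h3 : (2 * m : ℂ) • (1 : Matrix (Fin (N + 1)) (Fin (N + 1)) ℂ) = 0 := by
      have := congrArg₂ (· + ·) h1 h2
      simp only [Complex.ofReal_one, Complex.ofReal_neg, one_smul, neg_smul, sub_neg_eq_add,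
        add_zero] at this
      rw [← this]
      module
    have h4 := congrFun (congrFun h3 0) 0
    simp at h4
    exact hm0.ne' h4
  have hσσ : (σ : ℂ) * σ = 1 := by rcases hσ with h | h <;> simp [h]
  have hσA : ((σ : ℂ) • A).IsHermitian := by
    rcases hσ with h | h
    · rw [h]; simpa using hAh
    · rw [h]; simpa using hAh.neg
  have hnσ : nrm ((σ : ℂ) • A) = m := by
    rcases hσ with h | h
    · rw [h]; simp [hm]
    · rw [h]; simp [hm, nrm_neg]
  have hp1 : ((m : ℂ) • (1 : Matrix (Fin (N + 1)) (Fin (N + 1)) ℂ) - (σ : ℂ) • A).PosSemidef := by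
    rw [← hnσ]; exact psd_nrm _ hσA
  have hp2 : ((m : ℂ) • (1 : Matrix (Fin (N + 1)) (Fin (N + 1)) ℂ) + (σ : ℂ) • A).PosSemidef := by
    have := psd_nrm _ hσA.neg
    rw [nrm_neg, hnσ, sub_neg_eq_add] at this
    exact this
  obtain ⟨x, w, hw, hpr⟩ := rank_one N
    (fun k => (m : ℂ) * (if k = 0 then 1 else 0) - (σ : ℂ) * fc (fun s => (stp n c ε t s : ℂ)) k)
    _ (by
      intro j k
      simp only [Matrix.sub_apply, Matrix.smul_apply, Matrix.one_apply, smul_eq_mul, hA, toep,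
        Matrix.of_apply]
      congr 3
      rw [eq_iff_iff, Fin.ext_iff]
      omega) hp1 hσ0
  -- the new matrix
  set B := A + ((σ * w : ℝ) : ℂ) • em N x with hB
  have hBh : B.IsHermitian := hAh.add (em_herm N x (σ * w))
  have hBt : IsToep N B := by
    refine ⟨fun k => fc (fun s => (stp n c ε t s : ℂ)) k + ((σ * w : ℝ) : ℂ) * ch k x, fun j k => ?_⟩
    simp only [hB, Matrix.add_apply, Matrix.smul_apply, smul_eq_mul, hA, toep, Matrix.of_apply,
      em_apply, ch]
  have hσB : (σ : ℂ) • B = (σ : ℂ) • A + (w : ℂ) • em N x := by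
    rw [hB, smul_add, smul_smul]
    congr 2
    push_cast
    rw [← mul_assoc, hσσ, one_mul]
  have hBn : nrm B ≤ m := by
    have h1 : nrm ((σ : ℂ) • B) = nrm B := by
      rcases hσ with h | h
      · rw [h]; simp
      · rw [h]; simp [nrm_neg]
    rw [← h1]
    apply nrm_le
    · rcases hσ with h | h
      · rw [h]; simpa using hBh
      · rw [h]; simpa using hBh.neg
    · exact hm0.le
    · rw [hσB, ← sub_sub]
      exact hpr
    · rw [hσB, ← add_assoc]
      exact hp2.add (em_psd N x w hw.le)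
  have hcB : cVal N B ≤ c := by
    by_cases hB0 : B = 0
    · rw [hB0]
      have : (0 : ℝ) ∈ symb N 0 := by
        refine ⟨le_rfl, fun _ => 0, measurable_const, by simp, ?_⟩
        ext j k
        simp [toep, fc]
      exact (csInf_le (symb_bdd N 0) this).trans hc.le
    · have hpos : 0 < nrm B := lt_of_le_of_ne (nrm_nonneg B) fun h => hB0 (nrm_eq_zero h.symm)
      have h1 := le_csSup (ratios_bdd N) (show cVal N B / nrm B ∈ ratios N from ⟨B, hB0, hBh, hBt, rfl⟩)
      rw [div_le_iff₀ hpos] at h1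
      have h2 : cMax N * nrm B ≤ cMax N * m := mul_le_mul_of_nonneg_left hBn (by linarith)
      have h3 : cMax N * m = c := by rw [← hmax]; field_simp
      have h4 : cVal N B ≤ cMax N * nrm B := h1
      linarith
  refine no_f N n hn1 c ε hc hε t ht x w σ hw hσ fun η hη => ?_
  obtain ⟨C, ⟨hC0, f, hf, hfC, hfB⟩, hCη⟩ := exists_lt_of_csInf_lt
    (show (symb N B).Nonempty from ⟨_, symb_mem N B hBt⟩)
    (show sInf (symb N B) < c + η by
      have : cVal N B = sInf (symb N B) := rfl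
      linarith)
  refine ⟨f, hf, fun s => (hfC s).trans hCη.le, fun k hk => ?_⟩
  rcases le_total 0 k with h | h
  · obtain ⟨j, rfl⟩ := Int.eq_ofNat_of_zero_le h
    have hj : j < N + 1 := by
      rw [abs_of_nonneg h] at hk
      omega
    have := congrFun (congrFun hfB ⟨j, hj⟩) 0
    simp only [toep, Matrix.of_apply, hB, Matrix.add_apply, Matrix.smul_apply, smul_eq_mul, hA,
      em_apply, Fin.val_zero, Nat.cast_zero, sub_zero] at this
    rw [this]
    simp only [ch]
  · obtain ⟨j, hj'⟩ := Int.eq_ofNat_of_zero_le (neg_nonneg.2 h)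
    have hk' : k = -(j : ℤ) := by omega
    subst hk'
    have hj : j < N + 1 := by
      rw [abs_neg, Nat.abs_cast] at hk
      omega
    have := congrFun (congrFun hfB 0) ⟨j, hj⟩
    simp only [toep, Matrix.of_apply, hB, Matrix.add_apply, Matrix.smul_apply, smul_eq_mul, hA,
      em_apply, Fin.val_zero, Nat.cast_zero, zero_sub] at this
    rw [this]
    simp only [ch]

end Q8.TZ
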