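import Pool.Agent.Q8.TZ.Kernel

/-! Subtracting a rank one Toeplitz matrix; operator norms of Hermitian matrices. -/

open Matrix Polynomial Complex
open scoped ComplexOrder

namespace Q8.TZ

section
open scoped MatrixOrder Matrix.Norms.L2Operator

lemma psd_factor {n : Type*} [Fintype n] [DecidableEq n] (M : Matrix n n ℂ) (h : M.PosSemidef) :
    ∃ B : Matrix n n ℂ, M = Bᴴ * B := by
  obtain ⟨B, hB⟩ := CStarAlgebra.nonneg_iff_eq_star_mul_self.mp (nonneg_iff_posSemidef.2 h)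
  exact ⟨B, hB⟩

end

/-- the vector of the unit mass at `x` -/
noncomputable def ev (N : ℕ) (x : ℝ) : Fin (N + 1) → ℂ :=
  fun j => exp (-(((j : ℕ) : ℂ) * (x * I)))

lemma star_ev (N : ℕ) (x : ℝ) (j : Fin (N + 1)) :
    star (ev N x j) = exp (((j : ℕ) : ℂ) * (x * I)) := by
  simp only [ev, Complex.star_def, ← Complex.exp_conj]
  congr 1
  simp

lemma exists_preimage (n : Type*) [Fintype n] [DecidableEq n] (B : Matrix n n ℂ) (e : n → ℂ)
    (he : ∀ v, B *ᵥ v = 0 → star e ⬝ᵥ v = 0) : ∃ z : n → ℂ, e = Bᴴ *ᵥ z := by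
  let S : Submodule ℂ (EuclideanSpace ℂ n) :=
    LinearMap.range (toEuclideanCLM (𝕜 := ℂ) Bᴴ : EuclideanSpace ℂ n →ₗ[ℂ] EuclideanSpace ℂ n)
  obtain ⟨s, ⟨z, hz⟩, t, ht, hst⟩ := Submodule.exists_add_mem_mem_orthogonal (K := S)
    (WithLp.toLp 2 e)
  have ht' : B *ᵥ t.ofLp = 0 := by
    have h1 : ∀ u : n → ℂ, star u ⬝ᵥ (B *ᵥ t.ofLp) = 0 := by
      intro u
      have h2 := ht (toEuclideanCLM (𝕜 := ℂ) Bᴴ (WithLp.toLp 2 u)) ⟨_, rfl⟩
      rw [EuclideanSpace.inner_eq_star_dotProduct, ofLp_toEuclideanCLM, star_mulVec,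
        conjTranspose_conjTranspose, dotProduct_comm, ← dotProduct_mulVec] at h2
      exact h2
    have h3 := h1 (B *ᵥ t.ofLp)
    exact dotProduct_star_self_eq_zero.1 h3
  have h4 := he _ ht'
  have h5 : t = 0 := by
    have h6 : inner ℂ t t = 0 := by
      have h7 : inner ℂ s t = 0 := ht s ⟨z, hz⟩
      have h8 : inner ℂ (WithLp.toLp 2 e) t = 0 := by
        rw [EuclideanSpace.inner_eq_star_dotProduct, dotProduct_comm]
        exact h4
      rw [hst, inner_add_left, h7, zero_add] at h8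
      exact h8
    exact inner_self_eq_zero.1 h6
  refine ⟨z.ofLp, ?_⟩
  rw [h5, add_zero] at hst
  have h9 : e = s.ofLp := by rw [← hst]
  rw [h9, ← hz]
  rfl

/-- the Toeplitz matrix of the unit mass at `x` -/
noncomputable def em (N : ℕ) (x : ℝ) : Matrix (Fin (N + 1)) (Fin (N + 1)) ℂ :=
  Matrix.of fun j k => ev N x j * star (ev N x k)

lemma em_apply (N : ℕ) (x : ℝ) (j k : Fin (N + 1)) :
    em N x j k = exp (-((((j : ℤ) - (k : ℤ) : ℤ) : ℂ) * (x * I))) := by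
  simp only [em, Matrix.of_apply]
  rw [star_ev, ev, ← Complex.exp_add]
  congr 1
  push_cast
  ring

lemma em_quad (N : ℕ) (x : ℝ) (v : Fin (N + 1) → ℂ) :
    star v ⬝ᵥ (em N x *ᵥ v) = ((‖star (ev N x) ⬝ᵥ v‖ ^ 2 : ℝ) : ℂ) := by
  have h1 : em N x *ᵥ v = (star (ev N x) ⬝ᵥ v) • ev N x := by
    funext j
    simp only [mulVec, dotProduct, em, Matrix.of_apply, Pi.smul_apply, smul_eq_mul, Pi.star_apply]
    rw [Finset.sum_mul]
    exact Finset.sum_congr rfl fun k _ => by ring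
  have h2 : star v ⬝ᵥ ev N x = star (star (ev N x) ⬝ᵥ v) := by
    simp only [dotProduct, star_sum, star_mul', Pi.star_apply, star_star]
    exact Finset.sum_congr rfl fun k _ => by ring
  rw [h1, dotProduct_smul, h2, smul_eq_mul]
  have := Complex.mul_conj' (star (ev N x) ⬝ᵥ v)
  push_cast
  rw [← this]
  rfl

lemma em_herm (N : ℕ) (x w : ℝ) : ((w : ℂ) • em N x).IsHermitian := by
  ext j k
  simp only [conjTranspose_apply, Matrix.smul_apply, em, Matrix.of_apply, smul_eq_mul, star_mul',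
    star_star, Complex.star_def, Complex.conj_ofReal, Complex.conj_conj]
  ring

lemma em_psd (N : ℕ) (x w : ℝ) (hw : 0 ≤ w) : ((w : ℂ) • em N x).PosSemidef := by
  refine PosSemidef.of_dotProduct_mulVec_nonneg (em_herm N x w) fun v => ?_
  rw [smul_mulVec, dotProduct_smul, em_quad, smul_eq_mul, ← Complex.ofReal_mul]
  exact Complex.zero_le_real.2 (by positivity)

lemma rank_one (N : ℕ) (a : ℤ → ℂ) (M : Matrix (Fin (N + 1)) (Fin (N + 1)) ℂ)
    (hM : ∀ j k, M j k = a ((j : ℤ) - (k : ℤ))) (hps : M.PosSemidef) (hne : M ≠ 0) :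
    ∃ x w : ℝ, 0 < w ∧ (M - (w : ℂ) • em N x).PosSemidef := by
  obtain ⟨x, hx⟩ := kernel_root N a M hM hps hne
  obtain ⟨B, hB⟩ := psd_factor M hps
  obtain ⟨z, hz⟩ := exists_preimage _ B (ev N x) (by
    intro v hv
    have h1 : M *ᵥ v = 0 := by rw [hB, ← mulVec_mulVec, hv, mulVec_zero]
    have h2 := hx v h1
    rw [← h2]
    simp only [dotProduct, Pi.star_apply, star_ev]
    exact Finset.sum_congr rfl fun j _ => mul_comm _ _)
  have hz0 : z ≠ 0 := by
    rintro rfl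
    rw [mulVec_zero] at hz
    have := congrFun hz 0
    simp [ev] at this
  have hzn : 0 < ‖WithLp.toLp 2 z‖ := by
    rw [norm_pos_iff]
    intro h
    apply hz0
    have := congrArg (fun t : EuclideanSpace ℂ (Fin (N + 1)) => t.ofLp) h
    simpa using this
  refine ⟨x, 1 / ‖WithLp.toLp 2 z‖ ^ 2, by positivity, ?_⟩
  set w : ℝ := 1 / ‖WithLp.toLp 2 z‖ ^ 2 with hw
  refine PosSemidef.of_dotProduct_mulVec_nonneg (hps.isHermitian.sub (em_herm N x w)) fun v => ?_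
  have e1 : star v ⬝ᵥ (M *ᵥ v) = ((‖WithLp.toLp 2 (B *ᵥ v)‖ ^ 2 : ℝ) : ℂ) := by
    rw [hB, ← mulVec_mulVec, dotProduct_mulVec, ← star_mulVec]
    have := inner_self_eq_norm_sq_to_K (𝕜 := ℂ) (WithLp.toLp 2 (B *ᵥ v))
    rw [EuclideanSpace.inner_eq_star_dotProduct, dotProduct_comm] at this
    rw [this]
    push_cast
    rfl
  have e3 : star (ev N x) ⬝ᵥ v = inner ℂ (WithLp.toLp 2 z) (WithLp.toLp 2 (B *ᵥ v)) := by
    rw [hz, star_mulVec, conjTranspose_conjTranspose, ← dotProduct_mulVec,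
      EuclideanSpace.inner_eq_star_dotProduct, dotProduct_comm]
  rw [sub_mulVec, dotProduct_sub, e1, smul_mulVec, dotProduct_smul, em_quad, e3, smul_eq_mul,
    ← Complex.ofReal_mul, ← Complex.ofReal_sub]
  apply Complex.zero_le_real.2
  have h1 := norm_inner_le_norm (𝕜 := ℂ) (WithLp.toLp 2 z) (WithLp.toLp 2 (B *ᵥ v))
  have h2 : ‖inner ℂ (WithLp.toLp 2 z) (WithLp.toLp 2 (B *ᵥ v))‖ ^ 2
      ≤ (‖WithLp.toLp 2 z‖ * ‖WithLp.toLp 2 (B *ᵥ v)‖) ^ 2 :=
    pow_le_pow_left₀ (norm_nonneg _) h1 2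
  rw [sub_nonneg, hw, div_mul_eq_mul_div, one_mul, div_le_iff₀ (by positivity)]
  nlinarith

/-- the operator norm on `ℂ ^ (N + 1)` -/
noncomputable def nrm {n : Type*} [Fintype n] [DecidableEq n] (A : Matrix n n ℂ) : ℝ :=
  ‖Matrix.toEuclideanCLM (n := n) (𝕜 := ℂ) A‖

lemma inner_quad {n : Type*} [Fintype n] [DecidableEq n] (A : Matrix n n ℂ)
    (x : EuclideanSpace ℂ n) :
    inner ℂ x (Matrix.toEuclideanCLM (n := n) (𝕜 := ℂ) A x) = star x.ofLp ⬝ᵥ (A *ᵥ x.ofLp) := by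
  rw [EuclideanSpace.inner_eq_star_dotProduct, ofLp_toEuclideanCLM, dotProduct_comm]

lemma norm_quad {n : Type*} [Fintype n] [DecidableEq n] (x : EuclideanSpace ℂ n) :
    star x.ofLp ⬝ᵥ x.ofLp = ((‖x‖ ^ 2 : ℝ) : ℂ) := by
  have := inner_self_eq_norm_sq_to_K (𝕜 := ℂ) x
  rw [EuclideanSpace.inner_eq_star_dotProduct, dotProduct_comm] at this
  rw [this]
  push_cast
  rfl

lemma quad_sub {n : Type*} [Fintype n] [DecidableEq n] (A : Matrix n n ℂ) (m : ℝ)
    (hA : A.IsHermitian) (x : EuclideanSpace ℂ n) :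
    star x.ofLp ⬝ᵥ (((m : ℂ) • (1 : Matrix n n ℂ) - A) *ᵥ x.ofLp)
      = ((m * ‖x‖ ^ 2 - (inner ℂ x (Matrix.toEuclideanCLM (n := n) (𝕜 := ℂ) A x)).re : ℝ) : ℂ) := by
  have him : (star x.ofLp ⬝ᵥ (A *ᵥ x.ofLp)).im = 0 := hA.im_star_dotProduct_mulVec_self x.ofLp
  rw [sub_mulVec, dotProduct_sub, smul_mulVec, one_mulVec, dotProduct_smul, norm_quad, inner_quad]
  apply Complex.ext
  · simp
  · simp [him]

lemma smul_one_herm {n : Type*} [Fintype n] [DecidableEq n] (m : ℝ) :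
    ((m : ℂ) • (1 : Matrix n n ℂ)).IsHermitian := by
  ext j k
  simp [conjTranspose_apply, Matrix.one_apply, eq_comm]
  split_ifs <;> simp

lemma psd_iff {n : Type*} [Fintype n] [DecidableEq n] (A : Matrix n n ℂ) (m : ℝ)
    (hA : A.IsHermitian) : ((m : ℂ) • (1 : Matrix n n ℂ) - A).PosSemidef ↔
      ∀ x : EuclideanSpace ℂ n,
        (inner ℂ x (Matrix.toEuclideanCLM (n := n) (𝕜 := ℂ) A x)).re ≤ m * ‖x‖ ^ 2 := by
  rw [posSemidef_iff_dotProduct_mulVec]
  constructor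
  · rintro ⟨-, h⟩ x
    have := h x.ofLp
    rw [quad_sub A m hA, Complex.zero_le_real] at this
    linarith
  · intro h
    refine ⟨(smul_one_herm m).sub hA, fun v => ?_⟩
    have := quad_sub A m hA (WithLp.toLp 2 v)
    rw [this, Complex.zero_le_real]
    have := h (WithLp.toLp 2 v)
    linarith

lemma psd_nrm {n : Type*} [Fintype n] [DecidableEq n] (A : Matrix n n ℂ) (hA : A.IsHermitian) :
    (((nrm A : ℝ) : ℂ) • (1 : Matrix n n ℂ) - A).PosSemidef := by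
  rw [psd_iff A _ hA]
  intro x
  calc (inner ℂ x (Matrix.toEuclideanCLM (n := n) (𝕜 := ℂ) A x)).re
      ≤ ‖inner ℂ x (Matrix.toEuclideanCLM (n := n) (𝕜 := ℂ) A x)‖ := Complex.re_le_norm _
    _ ≤ ‖x‖ * ‖Matrix.toEuclideanCLM (n := n) (𝕜 := ℂ) A x‖ := norm_inner_le_norm _ _
    _ ≤ ‖x‖ * (nrm A * ‖x‖) := by
        gcongr
        exact ContinuousLinearMap.le_opNorm _ _
    _ = _ := by ring

lemma nrm_neg {n : Type*} [Fintype n] [DecidableEq n] (A : Matrix n n ℂ) : nrm (-A) = nrm A := by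
  simp [nrm]

lemma nrm_le {n : Type*} [Fintype n] [DecidableEq n] (A : Matrix n n ℂ) (hA : A.IsHermitian)
    (m : ℝ) (hm : 0 ≤ m) (h1 : ((m : ℂ) • (1 : Matrix n n ℂ) - A).PosSemidef)
    (h2 : ((m : ℂ) • (1 : Matrix n n ℂ) + A).PosSemidef) : nrm A ≤ m := by
  rw [psd_iff A m hA] at h1
  have hA' : (-A).IsHermitian := hA.neg
  rw [← sub_neg_eq_add, psd_iff (-A) m hA'] at h2
  have hsym : (Matrix.toEuclideanCLM (n := n) (𝕜 := ℂ) A : EuclideanSpace ℂ n →L[ℂ] _).IsSymmetric := by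
    intro x y
    simp only [ContinuousLinearMap.coe_coe]
    rw [EuclideanSpace.inner_eq_star_dotProduct, EuclideanSpace.inner_eq_star_dotProduct,
      ofLp_toEuclideanCLM, ofLp_toEuclideanCLM, star_mulVec, hA.eq, dotProduct_comm,
      ← dotProduct_mulVec, dotProduct_comm]
  have hn := ContinuousLinearMap.norm_eq_iSup_rayleighQuotient
    (T := Matrix.toEuclideanCLM (n := n) (𝕜 := ℂ) A) hsym
  have hn' : nrm A = ⨆ x, |(Matrix.toEuclideanCLM (n := n) (𝕜 := ℂ) A).rayleighQuotient x| := hn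
  rw [hn']
  apply ciSup_le
  intro x
  by_cases hx : x = 0
  · simp [hx, ContinuousLinearMap.rayleighQuotient, ContinuousLinearMap.reApplyInnerSelf, hm]
  have hxn : 0 < ‖x‖ ^ 2 := by have := norm_pos_iff.2 hx; positivity
  rw [ContinuousLinearMap.rayleighQuotient, abs_div, abs_of_pos hxn, div_le_iff₀ hxn,
    ContinuousLinearMap.reApplyInnerSelf_apply]
  have h3 := h1 x
  have h4 := h2 x
  rw [map_neg, ContinuousLinearMap.neg_apply, inner_neg_right, Complex.neg_re] at h4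
  rw [inner_re_symm, abs_le]
  constructor
  · show -(m * ‖x‖ ^ 2) ≤ (inner ℂ x (Matrix.toEuclideanCLM (n := n) (𝕜 := ℂ) A x)).re
    linarith
  · exact h3

end Q8.TZ
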