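import Pool.Agent.Q8.TZ.Defs

/-! Trigonometric polynomials. -/

open Complex MeasureTheory Set

namespace Q8.TZ

/-- characters -/
noncomputable def ch (k : ℤ) : ℝ → ℂ := fun t => exp (-((k : ℂ) * (t * I)))

lemma ch_mul (k l : ℤ) : ch k * ch l = ch (k + l) := by
  funext t
  simp only [ch, Pi.mul_apply, ← Complex.exp_add]
  congr 1
  push_cast
  ring

/-- trigonometric polynomials of degree at most `d` -/
def TP (d : ℕ) : Submodule ℂ (ℝ → ℂ) := Submodule.span ℂ (ch '' {k : ℤ | |k| ≤ d})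

lemma ch_mem {d : ℕ} {k : ℤ} (h : |k| ≤ d) : ch k ∈ TP d := Submodule.subset_span ⟨k, h, rfl⟩

lemma TP_mono {d e : ℕ} (h : d ≤ e) : TP d ≤ TP e := by
  apply Submodule.span_mono
  rintro _ ⟨k, hk, rfl⟩
  refine ⟨k, ?_, rfl⟩
  simp only [mem_ofPred_eq] at hk ⊢
  have : (d : ℤ) ≤ e := by exact_mod_cast h
  omega

lemma TP_mul {d e : ℕ} {g h : ℝ → ℂ} (hg : g ∈ TP d) (hh : h ∈ TP e) : g * h ∈ TP (d + e) := by
  have h1 : g * h ∈ TP d * TP e := Submodule.mul_mem_mul hg hh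
  rw [TP, TP, Submodule.span_mul_span] at h1
  refine Submodule.span_mono ?_ h1
  rintro _ ⟨_, ⟨k, hk, rfl⟩, _, ⟨l, hl, rfl⟩, rfl⟩
  refine ⟨k + l, ?_, (ch_mul k l).symm⟩
  simp only [mem_ofPred_eq] at hk hl ⊢
  calc |k + l| ≤ |k| + |l| := abs_add_le k l
    _ ≤ _ := by push_cast; omega

lemma const_mem (d : ℕ) (c : ℂ) : (fun _ : ℝ => c) ∈ TP d := by
  have : (fun _ : ℝ => c) = c • ch 0 := by
    funext t; simp [ch]
  rw [this]
  exact (TP d).smul_mem _ (ch_mem (by simp))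

lemma cos_mem (x : ℝ) : (fun t : ℝ => ((Real.cos (t - x) : ℝ) : ℂ)) ∈ TP 1 := by
  have : (fun t : ℝ => ((Real.cos (t - x) : ℝ) : ℂ))
      = (exp (-(x * I)) / 2) • ch (-1) + (exp (x * I) / 2) • ch 1 := by
    funext t
    simp only [ch, Pi.add_apply, Pi.smul_apply, smul_eq_mul]
    rw [Complex.ofReal_cos, Complex.cos]
    have e1 : exp (-(x * I)) / 2 * exp (-(((-1 : ℤ) : ℂ) * (t * I))) = exp (((t - x : ℝ) : ℂ) * I) / 2 := by
      rw [div_mul_eq_mul_div, ← Complex.exp_add]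
      congr 2
      push_cast
      ring
    have e2 : exp (x * I) / 2 * exp (-(((1 : ℤ) : ℂ) * (t * I))) = exp (-(((t - x : ℝ) : ℂ) * I)) / 2 := by
      rw [div_mul_eq_mul_div, ← Complex.exp_add]
      congr 2
      push_cast
      ring
    rw [e1, e2, ← add_div]
    congr 2
    ring_nf
  rw [this]
  exact (TP 1).add_mem ((TP 1).smul_mem _ (ch_mem (by simp))) ((TP 1).smul_mem _ (ch_mem (by simp)))

lemma sinsin_mem (a b : ℝ) :
    (fun t : ℝ => ((Real.sin ((t - a) / 2) * Real.sin ((t - b) / 2) : ℝ) : ℂ)) ∈ TP 1 := by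
  have : (fun t : ℝ => ((Real.sin ((t - a) / 2) * Real.sin ((t - b) / 2) : ℝ) : ℂ))
      = (fun _ : ℝ => ((Real.cos ((a - b) / 2) / 2 : ℝ) : ℂ))
        + (-(1 / 2) : ℂ) • (fun t : ℝ => ((Real.cos (t - (a + b) / 2) : ℝ) : ℂ)) := by
    funext t
    simp only [Pi.add_apply, Pi.smul_apply, smul_eq_mul]
    have e1 : Real.cos ((a - b) / 2) = Real.cos ((t - b) / 2 - (t - a) / 2) := by congr 1; ring
    have e2 : Real.cos (t - (a + b) / 2) = Real.cos ((t - b) / 2 + (t - a) / 2) := by congr 1; ring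
    rw [e1, e2, Real.cos_sub, Real.cos_add]
    push_cast
    ring
  rw [this]
  exact (TP 1).add_mem (const_mem 1 _) ((TP 1).smul_mem _ (cos_mem _))

lemma prod_mem (t : ℕ → ℝ) (n : ℕ) :
    (fun s : ℝ => ((∏ j ∈ Finset.range (2 * n), Real.sin ((s - t j) / 2) : ℝ) : ℂ)) ∈ TP n := by
  induction n with
  | zero => simpa using const_mem 0 1
  | succ n ih =>
    have : (fun s : ℝ => ((∏ j ∈ Finset.range (2 * (n + 1)), Real.sin ((s - t j) / 2) : ℝ) : ℂ))
        = (fun s : ℝ => ((∏ j ∈ Finset.range (2 * n), Real.sin ((s - t j) / 2) : ℝ) : ℂ))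
          * (fun s : ℝ => ((Real.sin ((s - t (2 * n)) / 2) * Real.sin ((s - t (2 * n + 1)) / 2) : ℝ) : ℂ)) := by
      funext s
      rw [show 2 * (n + 1) = 2 * n + 1 + 1 by ring, Finset.prod_range_succ, Finset.prod_range_succ]
      simp only [Pi.mul_apply]
      push_cast
      ring
    rw [this]
    exact TP_mul ih (sinsin_mem _ _)

lemma bdd_int {f : ℝ → ℂ} (hf : Measurable f) {C : ℝ} (hC : ∀ t, ‖f t‖ ≤ C) (a b : ℝ) :
    IntervalIntegrable f volume a b :=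
  (intervalIntegrable_const (c := C)).mono_fun' hf.aestronglyMeasurable
    (Filter.Eventually.of_forall hC)

/-- integration against trigonometric polynomials -/
lemma tp_int {f ψ : ℝ → ℂ} (hf : Measurable f) {C : ℝ} (hC : ∀ t, ‖f t‖ ≤ C)
    (hψ : Measurable ψ) {C' : ℝ} (hC' : ∀ t, ‖ψ t‖ ≤ C') (N : ℕ) (x : ℝ) (w : ℂ)
    (h : ∀ k : ℤ, |k| ≤ N → fc f k = fc ψ k + w * ch k x) {g : ℝ → ℂ} (hg : g ∈ TP N) :
    Continuous g ∧ ∫ t in (0 : ℝ)..(2 * Real.pi), g t * f t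
      = (∫ t in (0 : ℝ)..(2 * Real.pi), g t * ψ t) + 2 * Real.pi * w * g x := by
  induction hg using Submodule.span_induction with
  | mem g hg =>
    obtain ⟨k, hk, rfl⟩ := hg
    refine ⟨by unfold ch; fun_prop, ?_⟩
    have h1 := h k hk
    simp only [fc] at h1
    have hpi : (2 * (Real.pi : ℂ)) ≠ 0 := by
      simp [Real.pi_ne_zero]
    have e1 : ∫ t in (0 : ℝ)..(2 * Real.pi), ch k t * f t
        = ∫ t in (0 : ℝ)..(2 * Real.pi), f t * exp (-((k : ℂ) * (t * I))) := by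
      congr 1; funext t; simp only [ch]; ring
    have e2 : ∫ t in (0 : ℝ)..(2 * Real.pi), ch k t * ψ t
        = ∫ t in (0 : ℝ)..(2 * Real.pi), ψ t * exp (-((k : ℂ) * (t * I))) := by
      congr 1; funext t; simp only [ch]; ring
    rw [e1, e2]
    generalize (∫ t in (0 : ℝ)..(2 * Real.pi), f t * exp (-((k : ℂ) * (t * I)))) = F at h1 ⊢
    generalize (∫ t in (0 : ℝ)..(2 * Real.pi), ψ t * exp (-((k : ℂ) * (t * I)))) = G at h1 ⊢
    field_simp at h1
    linear_combination h1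
  | zero => exact ⟨continuous_const, by simp⟩
  | add g₁ g₂ _ _ ih₁ ih₂ =>
    obtain ⟨c1, i1⟩ := ih₁
    obtain ⟨c2, i2⟩ := ih₂
    refine ⟨c1.add c2, ?_⟩
    have m1 := (bdd_int hf hC 0 (2 * Real.pi)).continuousOn_mul c1.continuousOn
    have m2 := (bdd_int hf hC 0 (2 * Real.pi)).continuousOn_mul c2.continuousOn
    have m3 := (bdd_int hψ hC' 0 (2 * Real.pi)).continuousOn_mul c1.continuousOn
    have m4 := (bdd_int hψ hC' 0 (2 * Real.pi)).continuousOn_mul c2.continuousOn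
    simp only [Pi.add_apply, add_mul]
    rw [intervalIntegral.integral_add m1 m2, intervalIntegral.integral_add m3 m4, i1, i2]
    ring
  | smul a g _ ih =>
    obtain ⟨c1, i1⟩ := ih
    refine ⟨c1.const_smul a, ?_⟩
    simp only [Pi.smul_apply, smul_eq_mul, mul_assoc]
    rw [intervalIntegral.integral_const_mul, intervalIntegral.integral_const_mul]
    rw [i1]
    ring

end Q8.TZ
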